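import Pool.Agent.Z702.Defs
import Pool.Agent.Y668.CP

/-!
The order of the torsion group of `y² = x³ + a x² + b x` is twice an odd number.
-/

set_option autoImplicit false

namespace Pool.Agent.Y363.Z7

open WeierstrassCurve

open Pool.Agent.Z702 (WZ S_TORS)

/-- a finite commutative group with exactly one element of order two which is not divisible by two
has order twice an odd number -/
theorem grp {A : Type} [AddCommGroup A] [Finite A] {T : A} (hT : T ≠ 0) (hT2 : T + T = 0)
    (h2 : ∀ x : A, x + x = 0 → x = 0 ∨ x = T) (hdiv : ∀ x : A, x + x ≠ T) :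
    ∃ k : ℕ, Odd k ∧ Nat.card A = 2 * k := by
  let f : A →+ A := nsmulAddMonoidHom 2
  have hf : ∀ x, f x = x + x := fun x => two_nsmul x
  refine ⟨Nat.card f.range, ?_, ?_⟩
  · rw [← Nat.not_even_iff_odd]
    intro hev
    have hfin : Finite f.range := inferInstance
    have : Fact (Nat.Prime 2) := ⟨Nat.prime_two⟩
    obtain ⟨x, hx⟩ := exists_prime_addOrderOf_dvd_card' (G := f.range) 2 hev.two_dvd
    have hx0 : x ≠ 0 := by
      rintro rfl
      rw [addOrderOf_zero] at hx
      omega
    have hx2 : x + x = 0 := by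
      have h3 := addOrderOf_nsmul_eq_zero x
      rw [hx, two_nsmul] at h3
      exact h3
    have hx2' : (x : A) + (x : A) = 0 := by
      have := congrArg (fun y : f.range => (y : A)) hx2
      simpa using this
    rcases h2 _ hx2' with h | h
    · apply hx0
      exact Subtype.ext h
    · obtain ⟨y, hy⟩ := x.2
      rw [hf, h] at hy
      exact hdiv y hy
  · have hker : Nat.card f.ker = 2 := by
      rw [Nat.card_eq_two_iff]
      refine ⟨⟨0, f.ker.zero_mem⟩, ⟨T, by rw [AddMonoidHom.mem_ker, hf, hT2]⟩, ?_, ?_⟩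
      · intro h
        exact hT (congrArg Subtype.val h).symm
      · ext ⟨x, hx⟩
        rw [AddMonoidHom.mem_ker, hf] at hx
        simp only [Set.mem_insert_iff, Set.mem_singleton_iff, Set.mem_univ, iff_true,
          Subtype.mk.injEq]
        exact h2 x hx
    rw [← AddSubgroup.card_mul_index f.ker, hker, AddSubgroup.index_ker]

/-- the points of order two -/
lemma two_tors {a b : ℚ} (hns : ¬ IsSquare (a ^ 2 - 4 * b))
    (h0 : (Pool.Agent.Y668.Wt a b).toAffine.Nonsingular 0 0)
    (P : (Pool.Agent.Y668.Wt a b).toAffine.Point) (hP : P + P = 0) :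
    P = 0 ∨ P = Affine.Point.some 0 0 h0 := by
  have h1 : P = -P := by
    rw [← add_eq_zero_iff_eq_neg]
    exact hP
  cases P with
  | zero => exact Or.inl rfl
  | some x y h =>
    right
    rw [Affine.Point.neg_some, Affine.Point.some.injEq] at h1
    have h2 := h1.2
    have hy : y = 0 := by
      simp only [Affine.negY, Pool.Agent.Y668.Wt] at h2
      linarith
    have hx := Pool.Agent.Y668.Wt_eqn.1 h.1
    rw [hy] at hx
    have hx0 : x = 0 := by
      by_contra hne
      apply hns
      have h3 : x ^ 2 + a * x + b = 0 := by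
        have h4 : x * (x ^ 2 + a * x + b) = 0 := by linear_combination -hx
        exact (mul_eq_zero.1 h4).resolve_left hne
      exact ⟨2 * x + a, by linear_combination (-4 : ℚ) * h3⟩
    subst hx0
    subst hy
    rfl

/-- TORS -/
theorem t_TORS : S_TORS := by
  intro a b hb hab hbs hns
  have hb' : ((b : ℤ) : ℚ) ≠ 0 := by exact_mod_cast hb
  have hab' : ((a : ℤ) : ℚ) ^ 2 - 4 * ((b : ℤ) : ℚ) ≠ 0 := by
    intro h
    apply hab
    have : ((a ^ 2 - 4 * b : ℤ) : ℚ) = 0 := by
      push_cast
      exact h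
    exact_mod_cast this
  have hfg : AddGroup.FG (WZ a b).toAffine.Point := Pool.Agent.Y668.fg_Wt hb' hab'
  have h0 : (WZ a b).toAffine.Nonsingular 0 0 := by
    rw [Affine.nonsingular_zero]
    exact ⟨rfl, Or.inr hb'⟩
  set T : (WZ a b).toAffine.Point := Affine.Point.some 0 0 h0 with hT
  have hT0 : T ≠ 0 := fun h => Affine.Point.some_ne_zero h0 h
  have hT2 : T + T = 0 := by
    rw [add_eq_zero_iff_eq_neg, hT, Affine.Point.neg_some, Affine.Point.some.injEq]
    refine ⟨rfl, ?_⟩
    simp [Affine.negY, Pool.Agent.Y668.Wt]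
  have h2 : ∀ P : (WZ a b).toAffine.Point, P + P = 0 → P = 0 ∨ P = T :=
    two_tors hns h0
  have hdiv : ∀ P : (WZ a b).toAffine.Point, P + P ≠ T := by
    intro P hP
    apply hbs
    have h3 := Pool.Agent.Y668.al_add (two_ne_zero : (2 : ℚ) ≠ 0) P P
    rw [hP] at h3
    have h4 : Pool.Agent.Y668.al ((a : ℤ) : ℚ) ((b : ℤ) : ℚ) T = b := by
      rw [hT, Pool.Agent.Y668.al_some, if_pos rfl]
    rw [h4] at h3
    have h5 := Pool.Agent.Y668.al_ne hb' P
    obtain ⟨r, hr⟩ := h3
    refine ⟨r / Pool.Agent.Y668.al ((a : ℤ) : ℚ) ((b : ℤ) : ℚ) P, ?_⟩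
    field_simp
    linear_combination hr
  have hfin : Finite (AddCommGroup.torsion (WZ a b).toAffine.Point) := by
    have hmf : Module.Finite ℤ (WZ a b).toAffine.Point := Module.Finite.iff_addGroup_fg.2 hfg
    have hsub : AddGroup.FG (AddCommGroup.torsion (WZ a b).toAffine.Point) := by
      rw [← Module.Finite.iff_addGroup_fg]
      have h6 : Module.Finite ℤ
          (AddSubgroup.toIntSubmodule (AddCommGroup.torsion (WZ a b).toAffine.Point)) :=
        inferInstance
      exact h6
    have htor : IsAddTorsion (AddCommGroup.torsion (WZ a b).toAffine.Point) := by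
      intro x
      have hx := x.2
      rw [AddCommGroup.mem_torsion, isOfFinAddOrder_iff_nsmul_eq_zero] at hx
      obtain ⟨n, hn, hx⟩ := hx
      rw [isOfFinAddOrder_iff_nsmul_eq_zero]
      exact ⟨n, hn, Subtype.ext (by simpa using hx)⟩
    exact AddCommGroup.finite_of_fg_isAddTorsion _ htor
  have hTm : T ∈ AddCommGroup.torsion (WZ a b).toAffine.Point := by
    change IsOfFinAddOrder T
    rw [isOfFinAddOrder_iff_nsmul_eq_zero]
    exact ⟨2, by norm_num, by rw [two_nsmul, hT2]⟩
  refine grp (A := AddCommGroup.torsion (WZ a b).toAffine.Point) (T := ⟨T, hTm⟩) ?_ ?_ ?_ ?_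
  · intro h
    exact hT0 (congrArg Subtype.val h)
  · exact Subtype.ext hT2
  · rintro ⟨x, hx⟩ h
    rcases h2 x (congrArg Subtype.val h) with h7 | h7
    · left
      exact Subtype.ext h7
    · right
      exact Subtype.ext h7
  · rintro ⟨x, hx⟩ h
    exact hdiv x (congrArg Subtype.val h)

end Pool.Agent.Y363.Z7
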